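import Pool.Agent.Q91.VP.CKb

/-!
# Backup of the jobs VP-CK2, VP-CK3 of project VP (helper64), part 3: the statement S_CK, all `N ≥ 2`
-/

set_option autoImplicit false

open MeasureTheory Filter Topology Set Metric
open scoped ENNReal NNReal ContDiff Laplacian

namespace Pool.Agent.Q91.VP.CK
open Pool.Agent.Q64.VP

variable {N : ℕ}

/-- the antiderivative of `t^(1-N) (1 - A (1 - r²/t²)²)` -/
noncomputable def rr (N : ℕ) (r t : ℝ) : ℝ :=
  (((N : ℝ) + 4) * t ^ (2 - (N : ℝ)) - 2 * ((N : ℝ) + 2) * r ^ 2 * t ^ (-(N : ℝ)) +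
    N * r ^ 4 * t ^ (-2 - (N : ℝ))) / 8

theorem rp {t : ℝ} (ht : 0 < t) (c d : ℝ) (n : ℕ) (h : c = d - n) : t ^ c = t ^ d / t ^ n := by
  rw [h, Real.rpow_sub ht, Real.rpow_natCast]

theorem rr_eq {t : ℝ} (ht : 0 < t) (N : ℕ) (r : ℝ) : rr N r t =
    t ^ (2 - (N : ℝ)) * ((1 - (r / t) ^ 2) * ((N : ℝ) + 4 - N * (r / t) ^ 2)) / 8 := by
  unfold rr
  rw [rp ht (-(N : ℝ)) (2 - (N : ℝ)) 2 (by push_cast; ring),
    rp ht (-2 - (N : ℝ)) (2 - (N : ℝ)) 4 (by push_cast; ring)]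
  field_simp
  ring

theorem rr_deriv {t : ℝ} (ht : 0 < t) (N : ℕ) (r : ℝ) : HasDerivAt (rr N r)
    (t ^ (1 - (N : ℝ)) * (1 - (N : ℝ) * (N + 2) / 8 * (1 - (r / t) ^ 2) ^ 2)) t := by
  have h1 := (Real.hasDerivAt_rpow_const (x := t) (p := 2 - (N : ℝ)) (Or.inl ht.ne')).const_mul
    ((N : ℝ) + 4)
  have h2 := (Real.hasDerivAt_rpow_const (x := t) (p := -(N : ℝ)) (Or.inl ht.ne')).const_mul
    (2 * ((N : ℝ) + 2) * r ^ 2)
  have h3 := (Real.hasDerivAt_rpow_const (x := t) (p := -2 - (N : ℝ)) (Or.inl ht.ne')).const_mul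
    ((N : ℝ) * r ^ 4)
  have h := ((h1.sub h2).add h3).div_const 8
  refine h.congr_deriv ?_
  rw [rp ht (2 - (N : ℝ) - 1) (1 - (N : ℝ)) 0 (by push_cast; ring),
    rp ht (-(N : ℝ) - 1) (1 - (N : ℝ)) 2 (by push_cast; ring),
    rp ht (-2 - (N : ℝ) - 1) (1 - (N : ℝ)) 4 (by push_cast; ring)]
  field_simp
  ring

theorem rr_self {r : ℝ} (hr : 0 < r) (N : ℕ) : rr N r r = 0 := by
  rw [rr_eq hr, div_self hr.ne']
  norm_num

theorem rr_bound {r ρ : ℝ} (hr : 0 < r) (h : r < ρ) (N : ℕ) :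
    0 ≤ rr N r ρ ∧ rr N r ρ ≤ ρ ^ (2 - (N : ℝ)) * ((N : ℝ) + 4) / 8 := by
  have hρ := hr.trans h
  rw [rr_eq hρ]
  set b := (r / ρ) ^ 2 with hb
  have hb0 : 0 ≤ b := sq_nonneg _
  have hb1 : b ≤ 1 := by
    rw [hb]
    exact pow_le_one₀ (div_nonneg hr.le hρ.le) ((div_le_one hρ).2 h.le)
  have hN : (0 : ℝ) ≤ N := Nat.cast_nonneg N
  have hp : 0 ≤ ρ ^ (2 - (N : ℝ)) := Real.rpow_nonneg hρ.le _
  have hNb : (N : ℝ) * b ≤ N := mul_le_of_le_one_right hN hb1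
  have h1 : 0 ≤ (1 - b) * ((N : ℝ) + 4 - N * b) := mul_nonneg (by linarith) (by linarith)
  have h2 : (1 - b) * ((N : ℝ) + 4 - N * b) ≤ N + 4 := by nlinarith [mul_nonneg hb0 hb0]
  constructor
  · positivity
  · have := mul_le_mul_of_nonneg_left h2 hp
    linarith

theorem cont_rpow {r ρ : ℝ} (hr : 0 < r) (c : ℝ) : ContinuousOn (fun t : ℝ => t ^ c) (Icc r ρ) :=
  fun t ht => (Real.continuousAt_rpow_const t c (Or.inl (hr.trans_le ht.1).ne')).continuousWithinAt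

theorem main_int {ρ : ℝ} (x : E N) (hx : 0 < ‖x‖) (hxr : ‖x‖ < ρ) :
    ∫ t in Ioo ‖x‖ ρ, t ^ (1 - (N : ℝ)) = (N : ℝ) * (N + 2) / 8 * kz ρ x + rr N ‖x‖ ρ := by
  set r := ‖x‖ with hr
  have hk : kz ρ x = ∫ t in Ioo r ρ, t ^ (1 - (N : ℝ)) * (1 - (r / t) ^ 2) ^ 2 := by
    have h1 : kz ρ x = ∫ t in Ioo r ρ, t ^ (1 - (N : ℝ)) * psi (t⁻¹ • x) := by
      unfold kz
      refine setIntegral_eq_of_subset_of_forall_sdiff_eq_zero
        (f := fun t : ℝ => t ^ (1 - (N : ℝ)) * psi (t⁻¹ • x)) measurableSet_Ioo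
        (Ioo_subset_Ioo_left hx.le) fun t ht => ?_
      have ht0 : 0 < t := ht.1.1
      have ht1 : t ≤ r := by
        by_contra hc
        exact ht.2 ⟨not_le.1 hc, ht.1.2⟩
      show t ^ (1 - (N : ℝ)) * psi (t⁻¹ • x) = 0
      rw [psi_zero, mul_zero]
      rw [arg_norm ht0, le_div_iff₀ ht0, one_mul]
      exact ht1
    rw [h1]
    refine setIntegral_congr_fun measurableSet_Ioo fun t ht => ?_
    have ht0 : 0 < t := hx.trans ht.1
    show t ^ (1 - (N : ℝ)) * psi (t⁻¹ • x) = _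
    unfold psi bb
    rw [arg_norm ht0, max_eq_left]
    have : ‖x‖ / t ≤ 1 := (div_le_one ht0).2 ht.1.le
    nlinarith [div_nonneg (norm_nonneg x) ht0.le]
  have c1 : ContinuousOn (fun t : ℝ => t ^ (1 - (N : ℝ))) (Icc r ρ) := cont_rpow hx _
  have c2 : ContinuousOn (fun t : ℝ => t ^ (1 - (N : ℝ)) * (1 - (r / t) ^ 2) ^ 2) (Icc r ρ) := by
    refine c1.mul ?_
    refine ((continuousOn_const.sub ((continuousOn_const.div continuousOn_id fun t ht => ?_).pow 2)).pow 2)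
    exact (hx.trans_le ht.1).ne'
  have h2 : ∫ t in r..ρ, t ^ (1 - (N : ℝ)) * (1 - (N : ℝ) * (N + 2) / 8 * (1 - (r / t) ^ 2) ^ 2) =
      rr N r ρ - rr N r r := by
    refine intervalIntegral.integral_eq_sub_of_hasDerivAt (fun t ht => ?_) ?_
    · rw [uIcc_of_le hxr.le] at ht
      exact rr_deriv (hx.trans_le ht.1) N r
    · refine ContinuousOn.intervalIntegrable ?_
      rw [uIcc_of_le hxr.le]
      have := c1.sub (c2.const_mul ((N : ℝ) * (N + 2) / 8))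
      refine this.congr fun t _ => ?_
      show _ = t ^ (1 - (N : ℝ)) - (N : ℝ) * (N + 2) / 8 * (t ^ (1 - (N : ℝ)) * (1 - (r / t) ^ 2) ^ 2)
      ring
  rw [rr_self hx, sub_zero, intervalIntegral.integral_of_le hxr.le, integral_Ioc_eq_integral_Ioo] at h2
  have h3 : ∫ t in Ioo r ρ, t ^ (1 - (N : ℝ)) * (1 - (N : ℝ) * (N + 2) / 8 * (1 - (r / t) ^ 2) ^ 2) =
      ∫ t in Ioo r ρ, (t ^ (1 - (N : ℝ)) - (N : ℝ) * (N + 2) / 8 *
        (t ^ (1 - (N : ℝ)) * (1 - (r / t) ^ 2) ^ 2)) :=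
    setIntegral_congr_fun measurableSet_Ioo fun t _ => by ring
  have i1 : IntegrableOn (fun t : ℝ => t ^ (1 - (N : ℝ))) (Ioo r ρ) :=
    (c1.integrableOn_Icc).mono_set Ioo_subset_Icc_self
  have i2 : IntegrableOn (fun t : ℝ => t ^ (1 - (N : ℝ)) * (1 - (r / t) ^ 2) ^ 2) (Ioo r ρ) :=
    (c2.integrableOn_Icc).mono_set Ioo_subset_Icc_self
  rw [h3, integral_sub i1 (i2.const_mul _), integral_const_mul, ← hk] at h2
  linarith

theorem kk_eq {ρ : ℝ} (x : E N) (hx : 0 < ‖x‖) (hxr : ‖x‖ < ρ) :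
    kk N ρ ‖x‖ = ENNReal.ofReal ((N : ℝ) * (N + 2) / 8 * kz ρ x + rr N ‖x‖ ρ) := by
  rw [← main_int x hx hxr]
  unfold kk
  rw [ofReal_integral_eq_lintegral_ofReal]
  · exact ((cont_rpow hx _).integrableOn_Icc).mono_set Ioo_subset_Icc_self
  · exact (ae_restrict_mem measurableSet_Ioo).mono fun t ht => Real.rpow_nonneg (hx.trans ht.1).le _

theorem change0 (g : E N → ℝ) (a : E N) (w : E N → ℝ) (t : ℝ) (ht : 0 < t) :
    ∫ x, g (t⁻¹ • (x - a)) * w x = t ^ N * ∫ y, g y * w (a + t • y) := by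
  have h1 : ∫ x, g (t⁻¹ • (x - a)) * w x = ∫ x, g (t⁻¹ • x) * w (a + x) := by
    rw [← integral_sub_right_eq_self (fun x => g (t⁻¹ • x) * w (a + x)) a]
    refine integral_congr_ae (Eventually.of_forall fun x => ?_)
    show g (t⁻¹ • (x - a)) * w x = g (t⁻¹ • (x - a)) * w (a + (x - a))
    rw [add_sub_cancel]
  have h2 : ∫ y, g y * w (a + t • y) = |(t ^ N)⁻¹| • ∫ x, g (t⁻¹ • x) * w (a + x) := by
    have h3 := Measure.integral_comp_smul (volume : Measure (E N))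
      (fun x => g (t⁻¹ • x) * w (a + x)) t
    rw [finrank_euclideanSpace_fin] at h3
    rw [← h3]
    refine integral_congr_ae (Eventually.of_forall fun y => ?_)
    show g y * w (a + t • y) = g (t⁻¹ • t • y) * w (a + t • y)
    rw [smul_smul, inv_mul_cancel₀ ht.ne', one_smul]
  rw [h1, h2, smul_eq_mul, abs_of_pos (by positivity), ← mul_assoc, mul_inv_cancel₀ (by positivity),
    one_mul]

theorem t_CK : S_CK := by
  intro N hN
  have hN0 : (0 : ℝ) < N := by exact_mod_cast (by omega : 0 < N)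
  set A : ℝ := (N : ℝ) * (N + 2) / 8 with hA
  have hA0 : 0 < A := by positivity
  have hphi : 0 < ∫ y : E N, phi y := by
    refine phi_cont.integral_pos_of_hasCompactSupport_nonneg_nonzero (supp_of fun y hy => phi_zero hy)
      (fun y => phi_nonneg y) (x := 0) ?_
    simp [phi, bb]
  refine ⟨A * ∫ y : E N, phi y, mul_pos hA0 hphi, fun ρ hρ => ?_⟩
  refine ⟨fun x => A * kz ρ x, fun x => A * (ρ ^ N)⁻¹ * phi (ρ⁻¹ • x), A * (ρ ^ N)⁻¹ * 4,
    (kz_meas ρ).const_mul A, (kz_int ρ hρ).const_mul A,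
    continuous_const.mul (phi_cont.comp (continuous_const_smul ρ⁻¹)), fun x => ⟨?_, ?_⟩,
    fun x hx => ⟨?_, ?_⟩, fun D hD x hx => ?_, fun D hD => ?_, fun ζ hζ a => ?_⟩
  · exact mul_nonneg hA0.le (kz_nonneg ρ x)
  · rw [abs_of_nonneg (mul_nonneg (by positivity) (phi_nonneg _))]
    refine mul_le_mul_of_nonneg_left ?_ (by positivity)
    unfold phi
    linarith [bb_le (ρ⁻¹ • x)]
  · show A * kz ρ x = 0
    rw [kz_zero ρ x hx, mul_zero]
  · show A * (ρ ^ N)⁻¹ * phi (ρ⁻¹ • x) = 0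
    rw [phi_zero, mul_zero]
    rw [arg_norm hρ, le_div_iff₀ hρ, one_mul]
    exact hx
  · show ENNReal.ofReal (A * kz ρ x) ≤ kk N D ‖x‖
    rcases le_or_gt ρ ‖x‖ with h | h
    · rw [kz_zero ρ x h, mul_zero, ENNReal.ofReal_zero]
      exact zero_le
    · have hx0 : 0 < ‖x‖ := norm_pos_iff.2 hx
      calc ENNReal.ofReal (A * kz ρ x) ≤ ENNReal.ofReal (A * kz ρ x + rr N ‖x‖ ρ) :=
            ENNReal.ofReal_le_ofReal (by linarith [(rr_bound hx0 h N).1])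
        _ = kk N ρ ‖x‖ := (kk_eq x hx0 h).symm
        _ ≤ kk N D ‖x‖ := lintegral_mono_set (Ioo_subset_Ioo_right hD)
  · set M0 : ℝ≥0∞ := ∫⁻ s in Icc ρ D, ENNReal.ofReal (s ^ (1 - (N : ℝ))) with hM0
    have hM0t : M0 < ⊤ := ((cont_rpow hρ _).integrableOn_Icc).lintegral_lt_top
    set M1 : ℝ≥0∞ := ENNReal.ofReal (ρ ^ (2 - (N : ℝ)) * ((N : ℝ) + 4) / 8) with hM1
    have hMt : M1 + M0 ≠ ⊤ := ENNReal.add_ne_top.2 ⟨ENNReal.ofReal_ne_top, hM0t.ne⟩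
    refine ⟨(M1 + M0).toNNReal, fun x hx => ?_⟩
    show kk N D ‖x‖ ≤ ENNReal.ofReal (A * kz ρ x) + ((M1 + M0).toNNReal : ℝ≥0∞)
    rw [ENNReal.coe_toNNReal hMt]
    rcases le_or_gt ρ ‖x‖ with h | h
    · calc kk N D ‖x‖ ≤ M0 := lintegral_mono_set fun s hs => ⟨h.trans hs.1.le, hs.2.le⟩
        _ ≤ ENNReal.ofReal (A * kz ρ x) + (M1 + M0) := by
          rw [← add_assoc]
          exact le_add_self
    · have hx0 : 0 < ‖x‖ := norm_pos_iff.2 hx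
      have h1 : kk N D ‖x‖ ≤ kk N ρ ‖x‖ + M0 := by
        refine (lintegral_mono_set (t := Ioo ‖x‖ ρ ∪ Icc ρ D) fun s hs => ?_).trans
          (lintegral_union_le _ _ _)
        rcases lt_or_ge s ρ with h2 | h2
        · exact Or.inl ⟨hs.1, h2⟩
        · exact Or.inr ⟨h2, hs.2.le⟩
      refine h1.trans ?_
      rw [kk_eq x hx0 h, ← add_assoc]
      refine add_le_add ?_ le_rfl
      rw [ENNReal.ofReal_add (mul_nonneg hA0.le (kz_nonneg ρ x)) (rr_bound hx0 h N).1]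
      exact add_le_add le_rfl (ENNReal.ofReal_le_ofReal (rr_bound hx0 h N).2)
  · have e1 : ∫ x, A * kz ρ (x - a) * (Δ ζ) x = A * (Z ζ a ρ - Z ζ a 0) := by
      rw [← fubini ζ hζ a ρ hρ, ← integral_const_mul]
      simp_rw [mul_assoc]
    have e2 : ∫ x, A * (ρ ^ N)⁻¹ * phi (ρ⁻¹ • (x - a)) * ζ x = A * Z ζ a ρ := by
      have h := change0 phi a ζ ρ hρ
      have h1 : ∫ x, A * (ρ ^ N)⁻¹ * phi (ρ⁻¹ • (x - a)) * ζ x =
          A * (ρ ^ N)⁻¹ * ∫ x, phi (ρ⁻¹ • (x - a)) * ζ x := by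
        rw [← integral_const_mul]
        simp_rw [mul_assoc]
      rw [h1, h]
      unfold Z
      have : (ρ ^ N : ℝ) ≠ 0 := by positivity
      field_simp
    have e3 : Z ζ a 0 = (∫ y : E N, phi y) * ζ a := by
      unfold Z
      simp only [zero_smul, add_zero]
      rw [integral_mul_const]
    show ∫ x, A * kz ρ (x - a) * (Δ ζ) x = -(A * ∫ y : E N, phi y) * ζ a +
      ∫ x, A * (ρ ^ N)⁻¹ * phi (ρ⁻¹ • (x - a)) * ζ x
    rw [e1, e2, e3]
    ring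

theorem t_CK2 : S_CK2 := t_CK 2 le_rfl

theorem t_CK3 : S_CK3 := fun N hN => t_CK N (by omega)

end Pool.Agent.Q91.VP.CK
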