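import Pool.Agent.Q64.VP.Stm

/-!
# Backup of the jobs VP-CK2, VP-CK3 of project VP (helper64), part 1

The functions `psi y = ((1 - ‖y‖²)₊)²`, `phi y = 4 (1 - ‖y‖²)₊`, `∇ psi = - y phi`.
-/

set_option autoImplicit false

open MeasureTheory Filter Topology Set Metric
open scoped ENNReal NNReal ContDiff Laplacian

namespace Pool.Agent.Q91.VP.CK
open Pool.Agent.Q64.VP

variable {N : ℕ}

/-- the positive part of `1 - ‖y‖²` -/
noncomputable def bb (y : E N) : ℝ := max (1 - ‖y‖ ^ 2) 0
/-- its square -/
noncomputable def psi (y : E N) : ℝ := bb y ^ 2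
/-- four times it -/
noncomputable def phi (y : E N) : ℝ := 4 * bb y

theorem bb_cont : Continuous (bb (N := N)) := by unfold bb; fun_prop
theorem psi_cont : Continuous (psi (N := N)) := bb_cont.pow 2
theorem phi_cont : Continuous (phi (N := N)) := continuous_const.mul bb_cont
theorem bb_nonneg (y : E N) : 0 ≤ bb y := le_max_right _ _
theorem psi_nonneg (y : E N) : 0 ≤ psi y := pow_nonneg (bb_nonneg y) 2
theorem phi_nonneg (y : E N) : 0 ≤ phi y := mul_nonneg (by norm_num) (bb_nonneg y)
theorem bb_le (y : E N) : bb y ≤ 1 := max_le (by nlinarith [sq_nonneg ‖y‖]) zero_le_one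
theorem bb_zero {y : E N} (h : 1 ≤ ‖y‖) : bb y = 0 := max_eq_right (by nlinarith [norm_nonneg y])
theorem psi_zero {y : E N} (h : 1 ≤ ‖y‖) : psi y = 0 := by simp [psi, bb_zero h]
theorem phi_zero {y : E N} (h : 1 ≤ ‖y‖) : phi y = 0 := by simp [phi, bb_zero h]

theorem supp_of {f : E N → ℝ} (hf : ∀ y, 1 ≤ ‖y‖ → f y = 0) : HasCompactSupport f :=
  HasCompactSupport.intro (isCompact_closedBall (0 : E N) 1) fun y hy => hf y (by
    rw [mem_closedBall, dist_zero_right, not_le] at hy
    exact hy.le)

theorem integrable_of {f : E N → ℝ} (hc : Continuous f) (hf : ∀ y, 1 ≤ ‖y‖ → f y = 0) : Integrable f :=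
  hc.integrable_of_hasCompactSupport (supp_of hf)

theorem hasDerivAt_pp (s : ℝ) : HasDerivAt (fun s : ℝ => (max s 0) ^ 2) (2 * max s 0) s := by
  rcases lt_trichotomy s 0 with h | h | h
  · rw [max_eq_right h.le, mul_zero]
    refine (hasDerivAt_const s (0 : ℝ)).congr_of_eventuallyEq ?_
    filter_upwards [Iio_mem_nhds h] with x hx
    rw [max_eq_right (mem_Iio.1 hx).le]
    norm_num
  · subst h
    rw [max_self, mul_zero]
    have hl : HasDerivWithinAt (fun s : ℝ => (max s 0) ^ 2) 0 (Iic 0) 0 := by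
      refine (hasDerivWithinAt_const (0 : ℝ) (Iic 0) (0 : ℝ)).congr (fun x hx => ?_) (by norm_num)
      rw [max_eq_right (mem_Iic.1 hx)]
      norm_num
    have hr : HasDerivWithinAt (fun s : ℝ => (max s 0) ^ 2) 0 (Ici 0) 0 := by
      have h2 : HasDerivWithinAt (fun s : ℝ => s ^ 2) 0 (Ici 0) 0 := by
        have := (hasDerivAt_pow 2 (0 : ℝ)).hasDerivWithinAt (s := Ici (0 : ℝ))
        simpa using this
      refine h2.congr (fun x hx => ?_) (by norm_num)
      rw [max_eq_left (mem_Ici.1 hx)]
    have := hl.union hr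
    rw [Iic_union_Ici] at this
    exact hasDerivWithinAt_univ.1 this
  · rw [max_eq_left h.le]
    have h2 : HasDerivAt (fun s : ℝ => s ^ 2) (2 * s) s := by
      have := hasDerivAt_pow 2 s
      simpa using this
    refine h2.congr_of_eventuallyEq ?_
    filter_upwards [Ioi_mem_nhds h] with x hx
    rw [max_eq_left (mem_Ioi.1 hx).le]

theorem hasFDerivAt_psi (y : E N) : HasFDerivAt psi (-(phi y) • innerSL ℝ y) y := by
  have h1 : HasFDerivAt (fun y : E N => 1 - ‖y‖ ^ 2) (-(2 • innerSL ℝ y)) y :=
    (hasStrictFDerivAt_norm_sq y).hasFDerivAt.const_sub 1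
  have h2 := (hasDerivAt_pp (1 - ‖y‖ ^ 2)).comp_hasFDerivAt y h1
  refine h2.congr_fderiv ?_
  ext v
  simp only [phi, bb, smul_apply, neg_apply, smul_eq_mul,
    nsmul_eq_mul, innerSL_apply_apply]
  push_cast
  ring

theorem fderiv_psi (y v : E N) : fderiv ℝ psi y v = -(phi y * inner ℝ y v) := by
  rw [(hasFDerivAt_psi y).fderiv]
  simp

/-- the weighted mean of `ζ` -/
noncomputable def Z (ζ : E N → ℝ) (a : E N) (t : ℝ) : ℝ := ∫ y, phi y * ζ (a + t • y)

/-- the weighted mean of the Laplacian -/
noncomputable def W (w : E N → ℝ) (a : E N) (t : ℝ) : ℝ := ∫ y, psi y * w (a + t • y)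

theorem Z_deriv (ζ : E N → ℝ) (hζ : ContDiff ℝ ∞ ζ) (a : E N) (t : ℝ) :
    HasDerivAt (Z ζ a) (∫ y, phi y * fderiv ℝ ζ (a + t • y) y) t := by
  have hdc : Continuous (fderiv ℝ ζ) := hζ.continuous_fderiv (by simp)
  obtain ⟨C, hC⟩ := (isCompact_closedBall a (|t| + 1)).exists_bound_of_continuousOn hdc.continuousOn
  refine (hasDerivAt_integral_of_dominated_loc_of_deriv_le (s := ball t 1)
    (F := fun t y => phi y * ζ (a + t • y)) (F' := fun t y => phi y * fderiv ℝ ζ (a + t • y) y)
    (bound := fun y => phi y * C) (ball_mem_nhds t one_pos) ?_ ?_ ?_ ?_ ?_ ?_).2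
  · refine Eventually.of_forall fun x => ?_
    exact (phi_cont.mul (hζ.continuous.comp (by fun_prop))).aestronglyMeasurable
  · exact integrable_of (phi_cont.mul (hζ.continuous.comp (by fun_prop)))
      fun y hy => by rw [phi_zero hy, zero_mul]
  · refine (phi_cont.mul ?_).aestronglyMeasurable
    exact (hdc.comp (by fun_prop)).clm_apply continuous_id
  · refine Eventually.of_forall fun y x hx => ?_
    rcases le_total 1 ‖y‖ with hy | hy
    · simp [phi_zero hy]
    · have hx2 : a + x • y ∈ closedBall a (|t| + 1) := by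
        rw [mem_closedBall, dist_self_add_left, norm_smul, Real.norm_eq_abs]
        have h1 : |x| ≤ |t| + 1 := by
          have h2 := mem_ball.1 hx
          rw [Real.dist_eq] at h2
          calc |x| = |t + (x - t)| := by ring_nf
            _ ≤ |t| + |x - t| := abs_add_le _ _
            _ ≤ |t| + 1 := by linarith
        calc |x| * ‖y‖ ≤ (|t| + 1) * 1 := mul_le_mul h1 hy (norm_nonneg _) (by positivity)
          _ = |t| + 1 := mul_one _
      have h3 := hC _ hx2
      rw [norm_mul, Real.norm_eq_abs, abs_of_nonneg (phi_nonneg y)]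
      refine mul_le_mul_of_nonneg_left ?_ (phi_nonneg y)
      calc ‖fderiv ℝ ζ (a + x • y) y‖ ≤ ‖fderiv ℝ ζ (a + x • y)‖ * ‖y‖ :=
            ContinuousLinearMap.le_opNorm _ _
        _ ≤ ‖fderiv ℝ ζ (a + x • y)‖ * 1 := mul_le_mul_of_nonneg_left hy (norm_nonneg _)
        _ ≤ C := by rw [mul_one]; exact h3
  · exact integrable_of (phi_cont.mul continuous_const) fun y hy => by rw [phi_zero hy, zero_mul]
  · refine Eventually.of_forall fun y x _ => ?_
    have h1 : HasDerivAt (fun x : ℝ => a + x • y) y x := by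
      have := ((hasDerivAt_id x).smul_const y).const_add a
      simpa using this
    have h2 : HasFDerivAt ζ (fderiv ℝ ζ (a + x • y)) (a + x • y) :=
      (hζ.differentiable (by simp) _).hasFDerivAt
    exact (h2.comp_hasDerivAt x h1).const_mul (phi y)

theorem ibp (ζ : E N → ℝ) (hζ : ContDiff ℝ ∞ ζ) (a : E N) (t : ℝ) :
    ∫ y, phi y * fderiv ℝ ζ (a + t • y) y = t * W (Δ ζ) a t := by
  have hdc : ContDiff ℝ ∞ (fderiv ℝ ζ) := hζ.fderiv_right (by simp)
  have hddc : Continuous (fderiv ℝ (fderiv ℝ ζ)) := hdc.continuous_fderiv (by simp)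
  set b := stdOrthonormalBasis ℝ (E N) with hb
  -- one coordinate
  have key : ∀ v : E N, ∫ y, phi y * (inner ℝ y v * fderiv ℝ ζ (a + t • y) v) =
      ∫ y, psi y * (t * fderiv ℝ (fderiv ℝ ζ) (a + t • y) v v) := by
    intro v
    have hg : ∀ y, HasFDerivAt (fun y => fderiv ℝ ζ (a + t • y) v)
        ((ContinuousLinearMap.apply ℝ ℝ v).comp ((fderiv ℝ (fderiv ℝ ζ) (a + t • y)).comp
          (t • ContinuousLinearMap.id ℝ (E N)))) y := by
      intro y
      have h1 : HasFDerivAt (fun y : E N => a + t • y) (t • ContinuousLinearMap.id ℝ (E N)) y :=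
        ((hasFDerivAt_id y).const_smul t).const_add a
      have h2 : HasFDerivAt (fderiv ℝ ζ) (fderiv ℝ (fderiv ℝ ζ) (a + t • y)) (a + t • y) :=
        (hdc.differentiable (by simp) _).hasFDerivAt
      exact (ContinuousLinearMap.apply ℝ ℝ v).hasFDerivAt.comp y (h2.comp y h1)
    have hgv : ∀ y, fderiv ℝ (fun y => fderiv ℝ ζ (a + t • y) v) y v =
        t * fderiv ℝ (fderiv ℝ ζ) (a + t • y) v v := by
      intro y
      rw [(hg y).fderiv]
      simp
    have hgc : Continuous fun y => fderiv ℝ ζ (a + t • y) v :=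
      (hdc.continuous.comp (by fun_prop : Continuous fun y : E N => a + t • y)).clm_apply
        continuous_const
    have hddc' : Continuous fun y => t * fderiv ℝ (fderiv ℝ ζ) (a + t • y) v v :=
      continuous_const.mul (((hddc.comp (by fun_prop : Continuous fun y : E N => a + t • y)).clm_apply
        continuous_const).clm_apply continuous_const)
    have h := integral_mul_fderiv_eq_neg_fderiv_mul_of_integrable (μ := (volume : Measure (E N)))
      (f := psi) (g := fun y => fderiv ℝ ζ (a + t • y) v) (v := v) ?_ ?_ ?_ ?_ ?_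
    · simp_rw [hgv, fderiv_psi] at h
      rw [h, ← integral_neg]
      refine integral_congr_ae (Eventually.of_forall fun y => ?_)
      show _ = _
      ring
    · simp_rw [fderiv_psi]
      refine integrable_of (((phi_cont.mul (continuous_id.inner continuous_const)).neg).mul hgc)
        fun y hy => by rw [phi_zero hy]; simp
    · simp_rw [hgv]
      exact integrable_of (psi_cont.mul hddc') fun y hy => by rw [psi_zero hy, zero_mul]
    · exact integrable_of (psi_cont.mul hgc) fun y hy => by rw [psi_zero hy, zero_mul]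
    · exact fun y _ => (hasFDerivAt_psi y).differentiableAt
    · exact fun y _ => (hg y).differentiableAt
  have e1 : ∀ y, phi y * fderiv ℝ ζ (a + t • y) y =
      ∑ i, phi y * (inner ℝ y (b i) * fderiv ℝ ζ (a + t • y) (b i)) := by
    intro y
    rw [← Finset.mul_sum]
    congr 1
    have h := congrArg (fderiv ℝ ζ (a + t • y)) (b.sum_repr' y)
    rw [← h, map_sum]
    refine Finset.sum_congr rfl fun i _ => ?_
    rw [map_smul, smul_eq_mul, real_inner_comm]
  have e2 : ∀ y, t * (psi y * (Δ ζ) (a + t • y)) =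
      ∑ i, psi y * (t * fderiv ℝ (fderiv ℝ ζ) (a + t • y) (b i) (b i)) := by
    intro y
    rw [InnerProductSpace.laplacian_eq_iteratedFDeriv_orthonormalBasis ζ b]
    simp only [iteratedFDeriv_two_apply, Matrix.cons_val_zero, Matrix.cons_val_one]
    rw [← Finset.mul_sum, ← Finset.mul_sum]
    ring
  unfold W
  rw [← integral_const_mul]
  simp_rw [e1, e2]
  rw [integral_finsetSum, integral_finsetSum]
  · exact Finset.sum_congr rfl fun i _ => key (b i)
  · intro i _
    refine integrable_of (psi_cont.mul (continuous_const.mul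
      (((hddc.comp (by fun_prop : Continuous fun y : E N => a + t • y)).clm_apply
        continuous_const).clm_apply continuous_const))) fun y hy => by rw [psi_zero hy, zero_mul]
  · intro i _
    refine integrable_of (phi_cont.mul ((continuous_id.inner continuous_const).mul
      ((hdc.continuous.comp (by fun_prop : Continuous fun y : E N => a + t • y)).clm_apply
        continuous_const))) fun y hy => by rw [phi_zero hy, zero_mul]

theorem Z_deriv' (ζ : E N → ℝ) (hζ : ContDiff ℝ ∞ ζ) (a : E N) (t : ℝ) :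
    HasDerivAt (Z ζ a) (t * W (Δ ζ) a t) t := by
  rw [← ibp ζ hζ a t]
  exact Z_deriv ζ hζ a t

end Pool.Agent.Q91.VP.CK
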