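import Pool.Agent.Q91.VP.CKa

/-!
# Backup of the jobs VP-CK2, VP-CK3 of project VP (helper64), part 2: Fubini
-/

set_option autoImplicit false

open MeasureTheory Filter Topology Set Metric
open scoped ENNReal NNReal ContDiff Laplacian

namespace Pool.Agent.Q91.VP.CK
open Pool.Agent.Q64.VP

variable {N : ℕ}

/-- the integrand -/
noncomputable def ff (a : E N) (w : E N → ℝ) (p : E N × ℝ) : ℝ :=
  p.2 ^ (1 - (N : ℝ)) * psi (p.2⁻¹ • (p.1 - a)) * w p.1

theorem ff_meas (a : E N) (w : E N → ℝ) (hw : Continuous w) : Measurable (ff a w) := by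
  unfold ff
  refine ((by fun_prop : Measurable fun p : E N × ℝ => p.2 ^ (1 - (N : ℝ))).mul
    (psi_cont.measurable.comp ?_)).mul (hw.measurable.comp measurable_fst)
  exact (measurable_snd.inv).smul (measurable_fst.sub_const a)

theorem change (a : E N) (w : E N → ℝ) (t : ℝ) (ht : 0 < t) :
    ∫ x, ff a w (x, t) = t * W w a t := by
  have h1 : ∫ x, ff a w (x, t) = ∫ x, t ^ (1 - (N : ℝ)) * (psi (t⁻¹ • x) * w (a + x)) := by
    rw [← integral_sub_right_eq_self (fun x => t ^ (1 - (N : ℝ)) * (psi (t⁻¹ • x) * w (a + x))) a]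
    refine integral_congr_ae (Eventually.of_forall fun x => ?_)
    show t ^ (1 - (N : ℝ)) * psi (t⁻¹ • (x - a)) * w x =
      t ^ (1 - (N : ℝ)) * (psi (t⁻¹ • (x - a)) * w (a + (x - a)))
    rw [add_sub_cancel, mul_assoc]
  have h2 : ∫ y, psi y * w (a + t • y) = |(t ^ N)⁻¹| • ∫ x, psi (t⁻¹ • x) * w (a + x) := by
    have h3 := Measure.integral_comp_smul (volume : Measure (E N))
      (fun x => psi (t⁻¹ • x) * w (a + x)) t
    rw [finrank_euclideanSpace_fin] at h3
    rw [← h3]
    refine integral_congr_ae (Eventually.of_forall fun y => ?_)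
    show psi y * w (a + t • y) = psi (t⁻¹ • t • y) * w (a + t • y)
    rw [smul_smul, inv_mul_cancel₀ ht.ne', one_smul]
  rw [h1, integral_const_mul]
  unfold W
  rw [h2, smul_eq_mul, abs_of_pos (by positivity), ← mul_assoc]
  congr 1
  rw [Real.rpow_sub ht, Real.rpow_one, Real.rpow_natCast]
  field_simp

theorem ff_int (a : E N) (w : E N → ℝ) (hw : Continuous w) (ρ : ℝ) (hρ : 0 < ρ) :
    Integrable (ff a w) ((volume : Measure (E N)).prod ((volume : Measure ℝ).restrict (Ioo 0 ρ))) := by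
  have hm := ff_meas a w hw
  rw [integrable_prod_iff' hm.aestronglyMeasurable]
  constructor
  · refine (ae_restrict_mem measurableSet_Ioo).mono fun t ht => ?_
    have ht0 : 0 < t := ht.1
    have hc : Continuous fun x => ff a w (x, t) := by
      have h1 : Continuous fun x : E N => psi (t⁻¹ • (x - a)) :=
        psi_cont.comp (by fun_prop : Continuous fun x : E N => t⁻¹ • (x - a))
      have h2 : Continuous fun x : E N => t ^ (1 - (N : ℝ)) * psi (t⁻¹ • (x - a)) * w x :=
        (continuous_const.mul h1).mul hw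
      exact h2
    refine hc.integrable_of_hasCompactSupport (HasCompactSupport.intro (isCompact_closedBall a t)
      fun x hx => ?_)
    rw [mem_closedBall, dist_eq_norm, not_le] at hx
    show t ^ (1 - (N : ℝ)) * psi (t⁻¹ • (x - a)) * w x = 0
    rw [psi_zero, mul_zero, zero_mul]
    rw [norm_smul, norm_inv, Real.norm_eq_abs, abs_of_pos ht0, ← div_eq_inv_mul, le_div_iff₀ ht0,
      one_mul]
    exact hx.le
  · obtain ⟨C, hC⟩ := (isCompact_closedBall a ρ).exists_bound_of_continuousOn hw.continuousOn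
    have hC0 : 0 ≤ C := (norm_nonneg _).trans (hC a (mem_closedBall_self hρ.le))
    have hint : Integrable (psi (N := N)) := integrable_of psi_cont fun y hy => psi_zero hy
    refine Measure.integrableOn_of_bounded (M := ρ * ∫ y : E N, psi y * C) (by simp) ?_ ?_
    · have h2 := hm.norm.stronglyMeasurable.integral_prod_left' (μ := (volume : Measure (E N)))
      exact h2.aestronglyMeasurable
    · refine (ae_restrict_mem measurableSet_Ioo).mono fun t ht => ?_
      have h1 : ∫ x, ‖ff a w (x, t)‖ = ∫ x, ff a (fun x => |w x|) (x, t) := by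
        refine integral_congr_ae (Eventually.of_forall fun x => ?_)
        show ‖t ^ (1 - (N : ℝ)) * psi (t⁻¹ • (x - a)) * w x‖ =
          t ^ (1 - (N : ℝ)) * psi (t⁻¹ • (x - a)) * |w x|
        rw [norm_mul, norm_mul, Real.norm_eq_abs, Real.norm_eq_abs, Real.norm_eq_abs,
          abs_of_nonneg (Real.rpow_nonneg ht.1.le _), abs_of_nonneg (psi_nonneg _)]
      show ‖∫ x, ‖ff a w (x, t)‖‖ ≤ _
      rw [h1, change a _ t ht.1]
      have h0 : 0 ≤ W (fun x => |w x|) a t :=
        integral_nonneg fun y => mul_nonneg (psi_nonneg y) (abs_nonneg _)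
      rw [Real.norm_eq_abs, abs_of_nonneg (mul_nonneg ht.1.le h0)]
      refine mul_le_mul ht.2.le ?_ h0 hρ.le
      refine integral_mono ?_ (hint.mul_const C) fun y => ?_
      · exact integrable_of (psi_cont.mul ((hw.comp (by fun_prop)).abs))
          fun y hy => by rw [psi_zero hy, zero_mul]
      · show psi y * |w (a + t • y)| ≤ psi y * C
        rcases le_total 1 ‖y‖ with hy | hy
        · simp [psi_zero hy]
        · refine mul_le_mul_of_nonneg_left (hC _ ?_) (psi_nonneg y)
          rw [mem_closedBall, dist_self_add_left, norm_smul, Real.norm_eq_abs, abs_of_pos ht.1]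
          calc t * ‖y‖ ≤ ρ * 1 := mul_le_mul ht.2.le hy (norm_nonneg _) hρ.le
            _ = ρ := mul_one _

/-- the kernel without the constant -/
noncomputable def kz (ρ : ℝ) (x : E N) : ℝ := ∫ t in Ioo 0 ρ, t ^ (1 - (N : ℝ)) * psi (t⁻¹ • x)

theorem kz_mul (a : E N) (w : E N → ℝ) (ρ : ℝ) (x : E N) :
    kz ρ (x - a) * w x = ∫ t in Ioo 0 ρ, ff a w (x, t) := by
  unfold kz
  rw [← integral_mul_const]
  rfl

theorem fubini (ζ : E N → ℝ) (hζ : ContDiff ℝ ∞ ζ) (a : E N) (ρ : ℝ) (hρ : 0 < ρ) :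
    ∫ x, kz ρ (x - a) * (Δ ζ) x = Z ζ a ρ - Z ζ a 0 := by
  have hw : Continuous (Δ ζ) := by
    rw [InnerProductSpace.laplacian_eq_iteratedFDeriv_stdOrthonormalBasis]
    refine continuous_finsetSum _ fun i _ => ?_
    have hdc : ContDiff ℝ ∞ (fderiv ℝ ζ) := hζ.fderiv_right (by simp)
    have hddc : Continuous (fderiv ℝ (fderiv ℝ ζ)) := hdc.continuous_fderiv (by simp)
    simp only [iteratedFDeriv_two_apply]
    exact (hddc.clm_apply continuous_const).clm_apply continuous_const
  have hI := ff_int a (Δ ζ) hw ρ hρ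
  simp_rw [kz_mul]
  rw [integral_integral_swap (f := fun x t => ff a (Δ ζ) (x, t)) hI]
  have h1 : ∫ t in Ioo 0 ρ, ∫ x, ff a (Δ ζ) (x, t) = ∫ t in Ioo 0 ρ, t * W (Δ ζ) a t :=
    setIntegral_congr_fun measurableSet_Ioo fun t ht => change a _ t ht.1
  have h2 : IntegrableOn (fun t => t * W (Δ ζ) a t) (Ioo 0 ρ) :=
    hI.integral_prod_right.congr ((ae_restrict_mem measurableSet_Ioo).mono
      fun t ht => change a _ t ht.1)
  rw [h1, ← integral_Ioc_eq_integral_Ioo, ← intervalIntegral.integral_of_le hρ.le]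
  refine intervalIntegral.integral_eq_sub_of_hasDerivAt (fun t _ => Z_deriv' ζ hζ a t) ?_
  rw [intervalIntegrable_iff_integrableOn_Ioc_of_le hρ.le, integrableOn_Ioc_iff_integrableOn_Ioo]
  exact h2

theorem kz_meas (ρ : ℝ) : Measurable (kz (N := N) ρ) := by
  have h := (ff_meas (0 : E N) (fun _ => 1) continuous_const).stronglyMeasurable
  have h2 := h.integral_prod_right' (ν := (volume : Measure ℝ).restrict (Ioo 0 ρ))
  have h3 : (fun x : E N => ∫ t in Ioo 0 ρ, ff 0 (fun _ => 1) (x, t)) = kz ρ := by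
    funext x
    have := kz_mul (0 : E N) (fun _ => 1) ρ x
    rw [← this]
    simp
  rw [← h3]
  exact h2.measurable

theorem kz_int (ρ : ℝ) (hρ : 0 < ρ) : Integrable (kz (N := N) ρ) := by
  have h := (ff_int (0 : E N) (fun _ => 1) continuous_const ρ hρ).integral_prod_left
  refine h.congr (Eventually.of_forall fun x => ?_)
  have := kz_mul (0 : E N) (fun _ => 1) ρ x
  show ∫ t in Ioo 0 ρ, ff 0 (fun _ => 1) (x, t) = kz ρ x
  rw [← this]
  simp

theorem kz_nonneg (ρ : ℝ) (x : E N) : 0 ≤ kz ρ x :=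
  setIntegral_nonneg measurableSet_Ioo fun _ ht => mul_nonneg (Real.rpow_nonneg ht.1.le _) (psi_nonneg _)

theorem arg_norm {t : ℝ} (ht : 0 < t) (x : E N) : ‖t⁻¹ • x‖ = ‖x‖ / t := by
  rw [norm_smul, norm_inv, Real.norm_eq_abs, abs_of_pos ht, ← div_eq_inv_mul]

theorem kz_zero (ρ : ℝ) (x : E N) (hx : ρ ≤ ‖x‖) : kz ρ x = 0 := by
  refine setIntegral_eq_zero_of_forall_eq_zero fun t ht => ?_
  rw [psi_zero, mul_zero]
  rw [arg_norm ht.1, le_div_iff₀ ht.1, one_mul]
  exact ht.2.le.trans hx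

end Pool.Agent.Q91.VP.CK
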